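import Pool.Agent.H89.WX

set_option autoImplicit false

namespace Pool.Agent.Results.MP_c978f4_al.Conj

open MvPolynomial

theorem result (F : Type*) [Field F] [CharZero F]
    (ψ : Derivation F (MvPolynomial ℕ F) (MvPolynomial ℕ F) ≃ₗ⁅F⁆
      Derivation F (MvPolynomial ℕ F) (MvPolynomial ℕ F)) :
    ∃ φ : MvPolynomial ℕ F ≃ₐ[F] MvPolynomial ℕ F,
      ∀ (D : Derivation F (MvPolynomial ℕ F) (MvPolynomial ℕ F)) (g : MvPolynomial ℕ F),
        ψ D g = φ (D (φ.symm g)) :=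
  H89.WX.main ψ (pderiv 0) (pderiv 1) (X 0) (X 1) (by simp) (by simp [pderiv_X])
    (by simp [pderiv_X]) (by simp)

end Pool.Agent.Results.MP_c978f4_al.Conj
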